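import Pool.Agent.BHFrac.Part3

open MeasureTheory Set

namespace Pool.Agent.BHFrac

variable {V E : Type*}

open Classical in
/-- The load vector of a pair of paths. -/
noncomputable def load (k l : ℕ) (P Q : List (E × V)) : E ⊕ V → ℝ
  | Sum.inl e => ((k:ℝ) + 1) * (if ∃ p ∈ P, p.1 = e then 1 else 0) +
      ((l:ℝ) - 1) * (if ∃ p ∈ Q, p.1 = e then 1 else 0)
  | Sum.inr v => ((k:ℝ) + 1) * (if ∃ p ∈ P, p.2 = v then 1 else 0)

/-- The capacity region. -/
def cap (s t : V) : Set (E ⊕ V → ℝ) :=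
  {b | (∀ e, b (Sum.inl e) ≤ 1) ∧ ∀ v, v ≠ s → v ≠ t → b (Sum.inr v) ≤ 1}

theorem cap_convex (s t : V) : Convex ℝ (cap (E := E) s t) := by
  intro a ha b hb p q hp hq hpq
  refine ⟨fun e => ?_, fun v h1 h2 => ?_⟩
  · have := ha.1 e
    have := hb.1 e
    simp only [Pi.add_apply, Pi.smul_apply, smul_eq_mul]
    nlinarith
  · have := ha.2 v h1 h2
    have := hb.2 v h1 h2
    simp only [Pi.add_apply, Pi.smul_apply, smul_eq_mul]
    nlinarith

theorem cap_closed (s t : V) : IsClosed (cap (E := E) s t) := by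
  have h1 : IsClosed {b : E ⊕ V → ℝ | ∀ e, b (Sum.inl e) ≤ 1} := by
    simp only [Set.ofPred_forall]
    exact isClosed_iInter fun e => isClosed_le (continuous_apply _) continuous_const
  have h2 : IsClosed {b : E ⊕ V → ℝ | ∀ v, v ≠ s → v ≠ t → b (Sum.inr v) ≤ 1} := by
    simp only [Set.ofPred_forall]
    exact isClosed_iInter fun v => isClosed_iInter fun _ => isClosed_iInter fun _ =>
      isClosed_le (continuous_apply _) continuous_const
  exact h1.inter h2

theorem paths_finite [Finite V] [Finite E] (G : MGraph V E) (s t : V) :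
    {r | G.IsPath s r t}.Finite := by
  classical
  have : Fintype V := Fintype.ofFinite V
  apply (List.finite_length_le (E × V) (Fintype.card V)).subset
  intro r hr
  have h := hr.2.length_le_card
  simp only [List.length_cons, List.length_map] at h
  simp only [Set.mem_ofPred_eq]
  omega

open Classical in
theorem set_sum_le {α : Type*} [Fintype α] (g : E × V → α) (c : α → ℝ) (hc : ∀ a, 0 ≤ c a) :
    ∀ r : List (E × V), ∑ a, (if ∃ p ∈ r, g p = a then (1:ℝ) else 0) * c a ≤
      (r.map (fun p => c (g p))).sum := by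
  intro r
  induction r with
  | nil => simp
  | cons b r ih =>
    have h1 : ∑ a, (if ∃ p ∈ b :: r, g p = a then (1:ℝ) else 0) * c a ≤
        ∑ a, ((if g b = a then (1:ℝ) else 0) * c a + (if ∃ p ∈ r, g p = a then (1:ℝ) else 0) * c a) := by
      apply Finset.sum_le_sum
      intro a _
      have hca := hc a
      by_cases h2 : g b = a
      · by_cases h3 : ∃ p ∈ r, g p = a
        · simp only [h2, h3, if_true, one_mul]
          split_ifs <;> linarith
        · simp only [h2, h3, if_true, if_false, one_mul]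
          split_ifs <;> linarith
      · by_cases h3 : ∃ p ∈ r, g p = a
        · simp only [h2, h3, if_true, if_false, one_mul]
          split_ifs <;> linarith
        · have h4 : ¬ ∃ p ∈ b :: r, g p = a := by
            rintro ⟨p, hp, hpa⟩
            rcases List.mem_cons.1 hp with h5 | h5
            · subst h5; exact h2 hpa
            · exact h3 ⟨p, h5, hpa⟩
          simp only [h2, h3, h4, if_false]
          linarith
    rw [Finset.sum_add_distrib] at h1
    have h6 : ∑ a, (if g b = a then (1:ℝ) else 0) * c a = c (g b) := by simp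
    rw [h6] at h1
    simp only [List.map_cons, List.sum_cons]
    linarith

theorem key [Fintype V] [Fintype E] (G : MGraph V E) (s t : V) (hst : s ≠ t) (k l : ℕ) (hl : 1 ≤ l)
    (hcp : G.ConnPair s t k l) :
    ((convexHull ℝ {a | ∃ P Q, G.IsPath s P t ∧ G.IsPath s Q t ∧ a = load k l P Q}) ∩
      cap (E := E) s t).Nonempty := by
  classical
  by_contra hcon
  have hl' : (1:ℝ) ≤ l := by exact_mod_cast hl
  have hk' : (0:ℝ) ≤ k := by positivity
  set S : Set (E ⊕ V → ℝ) := {a | ∃ P Q, G.IsPath s P t ∧ G.IsPath s Q t ∧ a = load k l P Q} with hS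
  have hSf : S.Finite := by
    apply ((paths_finite G s t).image2 (load k l) (paths_finite G s t)).subset
    rintro a ⟨P, Q, hP, hQ, rfl⟩
    exact ⟨P, hP, Q, hQ, rfl⟩
  have hdisj : Disjoint (convexHull ℝ S) (cap (E := E) s t) := by
    rw [Set.disjoint_iff_inter_eq_empty]
    exact Set.not_nonempty_iff_eq_empty.1 hcon
  obtain ⟨f, u, v, hf1, huv, hf2⟩ := geometric_hahn_banach_compact_closed
    (convex_convexHull ℝ S) (hSf.isCompact_convexHull ℝ) (cap_convex s t) (cap_closed s t) hdisj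
  -- coordinates of f
  have hfs : ∀ b : E ⊕ V → ℝ, f b = ∑ i, b i * f (Pi.single i 1) := by
    intro b
    have hb : b = ∑ i, b i • (Pi.single i (1:ℝ) : E ⊕ V → ℝ) := by
      ext j
      simp [Finset.sum_apply, Pi.single_apply]
    conv_lhs => rw [hb]
    rw [map_sum]
    simp only [map_smul, smul_eq_mul]
  set z : E → ℝ := fun e => - f (Pi.single (Sum.inl e) 1) with hz
  set w : V → ℝ := fun x => - f (Pi.single (Sum.inr x) 1) with hw
  have hone : (fun _ => 1 : E ⊕ V → ℝ) ∈ cap (E := E) s t := ⟨fun _ => le_refl _, fun _ _ _ => le_refl _⟩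
  have hv1 := hf2 _ hone
  -- sign argument
  have hsign : ∀ i : E ⊕ V, (∀ M : ℝ, 0 ≤ M →
      ((fun _ => 1 : E ⊕ V → ℝ) - M • Pi.single i 1) ∈ cap (E := E) s t) →
      0 ≤ - f (Pi.single i 1) := by
    intro i hi
    by_contra hneg
    push Not at hneg
    have hpos : 0 < f (Pi.single i 1) := by linarith
    set M := (f (fun _ => 1 : E ⊕ V → ℝ) - v) / f (Pi.single i 1) with hM
    have hM0 : 0 ≤ M := by
      apply div_nonneg _ hpos.le
      linarith
    have := hf2 _ (hi M hM0)
    rw [map_sub, map_smul, smul_eq_mul] at this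
    have h2 : M * f (Pi.single i 1) = f (fun _ => 1 : E ⊕ V → ℝ) - v := by
      rw [hM]; field_simp
    rw [h2] at this
    linarith
  have hdec : ∀ i : E ⊕ V, ∀ M : ℝ, 0 ≤ M →
      ((fun _ => 1 : E ⊕ V → ℝ) - M • Pi.single i 1) ∈ cap (E := E) s t := by
    intro i M hM
    have : ∀ j, ((fun _ => 1) - M • Pi.single i 1 : E ⊕ V → ℝ) j ≤ 1 := by
      intro j
      simp only [Pi.sub_apply, Pi.smul_apply, smul_eq_mul, Pi.single_apply]
      split_ifs <;> linarith
    exact ⟨fun e => this _, fun x _ _ => this _⟩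
  have hz0 : ∀ e, 0 ≤ z e := fun e => hsign _ (hdec _)
  have hw0 : ∀ x, 0 ≤ w x := fun x => hsign _ (hdec _)
  have hzero : ∀ x, (x = s ∨ x = t) → w x = 0 := by
    intro x hx
    apply le_antisymm _ (hw0 x)
    by_contra hpos
    push Not at hpos
    set M := (f (fun _ => 1 : E ⊕ V → ℝ) - v) / w x with hM
    have hM0 : 0 ≤ M := div_nonneg (by linarith) hpos.le
    have hmem : ((fun _ => 1 : E ⊕ V → ℝ) + M • Pi.single (Sum.inr x) 1) ∈ cap (E := E) s t := by
      refine ⟨fun e => ?_, fun y h1 h2 => ?_⟩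
      · simp
      · have hyx : y ≠ x := by
          rintro rfl
          rcases hx with h | h
          · exact h1 h
          · exact h2 h
        simp [hyx]
    have := hf2 _ hmem
    rw [map_add, map_smul, smul_eq_mul] at this
    have h2 : M * w x = f (fun _ => 1 : E ⊕ V → ℝ) - v := by
      rw [hM]; field_simp
    have h3 : M * f (Pi.single (Sum.inr x) 1) = - (M * w x) := by
      rw [hw]; ring
    rw [h3, h2] at this
    linarith
  -- nonempty set of paths
  have hmix0 := mixed G s t hst k l hcp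
  have hmix : ∀ (W : Finset V) (F : Finset E), G.Disc s t W F → W.card ≤ k →
      k + l ≤ W.card + F.card := fun W F hd hW => hmix0 F.card W F rfl hd hW
  have hne : {r | G.IsPath s r t}.Nonempty := by
    by_contra hemp
    rw [Set.not_nonempty_iff_eq_empty] at hemp
    have : G.Disc s t ∅ ∅ := by
      refine ⟨by simp, by simp, fun r hr => ?_⟩
      exfalso
      have : r ∈ ({r | G.IsPath s r t} : Set (List (E × V))) := hr
      rw [hemp] at this
      exact this
    have := hmix _ _ this (by simp)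
    simp at this
    omega
  obtain ⟨P0, hP0, hP0'⟩ := Set.exists_min_image _ (len z w) (paths_finite G s t) hne
  obtain ⟨Q0, hQ0, hQ0'⟩ := Set.exists_min_image _ (len z (fun _ => (0:ℝ))) (paths_finite G s t) hne
  have hdual := dual_ineq G s t k l hl hmix z w hz0 hw0 (hzero s (Or.inl rfl)) (hzero t (Or.inr rfl))
    (len z w P0) (len z (fun _ => 0) Q0) (len_nonneg z w hz0 hw0 P0)
    (len_nonneg z _ hz0 (fun _ => le_refl _) Q0) (fun r hr => hP0' r hr) (fun r hr => hQ0' r hr)
  have hfl : f (load k l P0 Q0) < u := hf1 _ (subset_convexHull ℝ S ⟨P0, Q0, hP0, hQ0, rfl⟩)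
  have e1 : f (fun _ => 1 : E ⊕ V → ℝ) = - (∑ x, w x + ∑ e, z e) := by
    rw [hfs, Fintype.sum_sum_type]
    simp only [hz, hw, one_mul, Finset.sum_neg_distrib]
    ring
  have e2 : f (load k l P0 Q0) = - (((k:ℝ) + 1) * (∑ e, (if ∃ p ∈ P0, p.1 = e then (1:ℝ) else 0) * z e) +
      ((l:ℝ) - 1) * (∑ e, (if ∃ p ∈ Q0, p.1 = e then (1:ℝ) else 0) * z e) +
      ((k:ℝ) + 1) * (∑ x, (if ∃ p ∈ P0, p.2 = x then (1:ℝ) else 0) * w x)) := by
    rw [hfs, Fintype.sum_sum_type]
    simp only [load, Finset.mul_sum, ← Finset.sum_add_distrib, ← Finset.sum_neg_distrib, neg_add,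
      hz, hw]
    congr 1
    · apply Finset.sum_congr rfl
      intro e _
      ring
    · apply Finset.sum_congr rfl
      intro e _
      ring
  have b1 := set_sum_le (V := V) (fun p : E × V => p.1) z hz0 P0
  have b2 := set_sum_le (V := V) (fun p : E × V => p.1) z hz0 Q0
  have b3 := set_sum_le (E := E) (fun p : E × V => p.2) w hw0 P0
  have c1 : len z w P0 = (P0.map (fun p => z p.1)).sum + (P0.map (fun p => w p.2)).sum := by
    simp [len, List.sum_map_add]
  have c2 : len z (fun _ => (0:ℝ)) Q0 = (Q0.map (fun p => z p.1)).sum := by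
    simp [len]
  rw [c1, c2] at hdual
  rw [e1] at hv1
  rw [e2] at hfl
  have d1 := mul_le_mul_of_nonneg_left b1 (show (0:ℝ) ≤ (k:ℝ) + 1 by linarith)
  have d2 := mul_le_mul_of_nonneg_left b2 (show (0:ℝ) ≤ (l:ℝ) - 1 by linarith)
  have d3 := mul_le_mul_of_nonneg_left b3 (show (0:ℝ) ≤ (k:ℝ) + 1 by linarith)
  nlinarith

end Pool.Agent.BHFrac

open Pool.Agent.BHFrac in
open Classical in
/-- The fractional form of the Beineke–Harary conjecture: if `(k, l)` is a connectivity pair for
`s ≠ t` in a finite multigraph and `l ≥ 1`, then there are finitely many `s`-`t` paths `P i` with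
nonnegative weights `x i` of total `k + 1` and `y i` of total `l - 1` such that every internal
vertex carries `x`-weight at most `1` and every edge carries `(x + y)`-weight at most `1`. -/
theorem Pool.Agent.Results.MP_3940ed_co.FractionalVersion.result
    {V E : Type*} [Fintype V] [Fintype E] (G : MGraph V E) (s t : V) (hst : s ≠ t)
    (k l : ℕ) (hl : 1 ≤ l) (hcp : G.ConnPair s t k l) :
    ∃ (ι : Type) (_ : Fintype ι) (P : ι → List (E × V)) (x y : ι → ℝ),
      (∀ i, G.IsPath s (P i) t) ∧ (∀ i, 0 ≤ x i) ∧ (∀ i, 0 ≤ y i) ∧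
      ∑ i, x i = (k:ℝ) + 1 ∧ ∑ i, y i = (l:ℝ) - 1 ∧
      (∀ v, v ≠ s → v ≠ t → ∑ i, (if ∃ p ∈ P i, p.2 = v then x i else 0) ≤ 1) ∧
      (∀ e, ∑ i, (if ∃ p ∈ P i, p.1 = e then x i + y i else 0) ≤ 1) := by
  have hl' : (1:ℝ) ≤ l := by exact_mod_cast hl
  have hk' : (0:ℝ) ≤ k := by positivity
  obtain ⟨a, ha, hac⟩ := key G s t hst k l hl hcp
  rw [mem_convexHull_iff_exists_fintype] at ha
  obtain ⟨ι, hι, c, b, hc0, hc1, hb, hsum⟩ := ha
  choose P Q hP hQ hbe using hb
  refine ⟨ι ⊕ ι, inferInstance, Sum.elim P Q, Sum.elim (fun i => ((k:ℝ) + 1) * c i) (fun _ => 0),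
    Sum.elim (fun _ => 0) (fun i => ((l:ℝ) - 1) * c i), ?_, ?_, ?_, ?_, ?_, ?_, ?_⟩
  · rintro (i | i)
    · exact hP i
    · exact hQ i
  · rintro (i | i)
    · exact mul_nonneg (by linarith) (hc0 i)
    · exact le_refl _
  · rintro (i | i)
    · exact le_refl _
    · exact mul_nonneg (by linarith) (hc0 i)
  · rw [Fintype.sum_sum_type]
    simp only [Sum.elim_inl, Sum.elim_inr, Finset.sum_const_zero, add_zero, ← Finset.mul_sum, hc1,
      mul_one]
  · rw [Fintype.sum_sum_type]
    simp only [Sum.elim_inl, Sum.elim_inr, Finset.sum_const_zero, zero_add, ← Finset.mul_sum, hc1,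
      mul_one]
  · intro v h1 h2
    have h3 := hac.2 v h1 h2
    rw [← hsum] at h3
    rw [Fintype.sum_sum_type]
    refine le_trans (le_of_eq ?_) h3
    rw [Finset.sum_apply, ← Finset.sum_add_distrib]
    apply Finset.sum_congr rfl
    intro i _
    rw [Pi.smul_apply, hbe i, smul_eq_mul]
    by_cases hA : ∃ p ∈ P i, p.2 = v
    · by_cases hB : ∃ p ∈ Q i, p.2 = v
      · have e1 : (if ∃ p ∈ (Sum.elim P Q (Sum.inl i)), p.2 = v then
            (Sum.elim (fun i => ((k:ℝ) + 1) * c i) (fun _ => 0) (Sum.inl i : ι ⊕ ι) : ℝ) else 0) =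
            ((k:ℝ) + 1) * c i := if_pos hA
        have e2 : (if ∃ p ∈ (Sum.elim P Q (Sum.inr i)), p.2 = v then
            (Sum.elim (fun i => ((k:ℝ) + 1) * c i) (fun _ => 0) (Sum.inr i : ι ⊕ ι) : ℝ) else 0) =
            0 := if_pos hB
        rw [e1, e2]
        simp only [load, if_pos hA]
        ring
      · have e1 : (if ∃ p ∈ (Sum.elim P Q (Sum.inl i)), p.2 = v then
            (Sum.elim (fun i => ((k:ℝ) + 1) * c i) (fun _ => 0) (Sum.inl i : ι ⊕ ι) : ℝ) else 0) =
            ((k:ℝ) + 1) * c i := if_pos hA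
        have e2 : (if ∃ p ∈ (Sum.elim P Q (Sum.inr i)), p.2 = v then
            (Sum.elim (fun i => ((k:ℝ) + 1) * c i) (fun _ => 0) (Sum.inr i : ι ⊕ ι) : ℝ) else 0) =
            0 := if_neg hB
        rw [e1, e2]
        simp only [load, if_pos hA]
        ring
    · have e1 : (if ∃ p ∈ (Sum.elim P Q (Sum.inl i)), p.2 = v then
            (Sum.elim (fun i => ((k:ℝ) + 1) * c i) (fun _ => 0) (Sum.inl i : ι ⊕ ι) : ℝ) else 0) =
            0 := if_neg hA
      have e2 : (if ∃ p ∈ (Sum.elim P Q (Sum.inr i)), p.2 = v then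
            (Sum.elim (fun i => ((k:ℝ) + 1) * c i) (fun _ => 0) (Sum.inr i : ι ⊕ ι) : ℝ) else 0) =
            0 := by
        by_cases hB : ∃ p ∈ Q i, p.2 = v
        · exact if_pos hB
        · exact if_neg hB
      rw [e1, e2]
      simp only [load, if_neg hA]
      ring
  · intro e
    have h3 := hac.1 e
    rw [← hsum] at h3
    rw [Fintype.sum_sum_type]
    refine le_trans (le_of_eq ?_) h3
    rw [Finset.sum_apply, ← Finset.sum_add_distrib]
    apply Finset.sum_congr rfl
    intro i _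
    rw [Pi.smul_apply, hbe i, smul_eq_mul]
    have e1 : (if ∃ p ∈ (Sum.elim P Q (Sum.inl i)), p.1 = e then
            (Sum.elim (fun i => ((k:ℝ) + 1) * c i) (fun _ => 0) (Sum.inl i : ι ⊕ ι) : ℝ) +
            (Sum.elim (fun _ => 0) (fun i => ((l:ℝ) - 1) * c i) (Sum.inl i : ι ⊕ ι) : ℝ) else 0) =
            ((k:ℝ) + 1) * c i * (if ∃ p ∈ P i, p.1 = e then 1 else 0) := by
      by_cases hA : ∃ p ∈ P i, p.1 = e
      · rw [if_pos hA]
        refine (if_pos hA).trans ?_
        simp
      · rw [if_neg hA]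
        refine (if_neg hA).trans ?_
        simp
    have e2 : (if ∃ p ∈ (Sum.elim P Q (Sum.inr i)), p.1 = e then
            (Sum.elim (fun i => ((k:ℝ) + 1) * c i) (fun _ => 0) (Sum.inr i : ι ⊕ ι) : ℝ) +
            (Sum.elim (fun _ => 0) (fun i => ((l:ℝ) - 1) * c i) (Sum.inr i : ι ⊕ ι) : ℝ) else 0) =
            ((l:ℝ) - 1) * c i * (if ∃ p ∈ Q i, p.1 = e then 1 else 0) := by
      by_cases hA : ∃ p ∈ Q i, p.1 = e
      · rw [if_pos hA]
        refine (if_pos hA).trans ?_
        simp
      · rw [if_neg hA]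
        refine (if_neg hA).trans ?_
        simp
    rw [e1, e2]
    simp only [load]
    ring
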